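import Mathlib

/-!
# MP_80693f_an: isometric approximation of almost isometries between `L^∞` spaces

Both properties (A) and (B₂) fail for a suitable pair of (non σ-finite) measure spaces.

The first space carries the countable-cocountable σ-algebra, the second one the σ-algebra of all
sets determined by countably many coordinates on a set of finitely supported probability
measures; both measures are counting measures.
-/

open MeasureTheory Set Filter
open scoped ENNReal Topology Cardinal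

namespace Pool.Agent.Results.MP_80693f_an.NonSigmaFinite

/-! ## The properties of the problem -/

/-- `T` is `ε`-isometric. -/
def EpsIsometric {E F : Type} [NormedAddCommGroup E] [NormedSpace ℝ E] [NormedAddCommGroup F]
    [NormedSpace ℝ F] (ε : ℝ) (T : E →L[ℝ] F) : Prop :=
  ∀ x, (1 - ε) * ‖x‖ ≤ ‖T x‖ ∧ ‖T x‖ ≤ (1 + ε) * ‖x‖

/-- `V` is isometric (not necessarily surjective). -/
def Isometric {E F : Type} [NormedAddCommGroup E] [NormedSpace ℝ E] [NormedAddCommGroup F]
    [NormedSpace ℝ F] (V : E →L[ℝ] F) : Prop :=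
  ∀ x, ‖V x‖ = ‖x‖

/-- `T` is positive. -/
def Positive {E F : Type} [NormedAddCommGroup E] [NormedSpace ℝ E] [NormedAddCommGroup F]
    [NormedSpace ℝ F] [PartialOrder E] [PartialOrder F] (T : E →L[ℝ] F) : Prop :=
  ∀ x, 0 ≤ x → 0 ≤ T x

/-- Property (A) for `B(E, F)`. -/
def PropertyA (E F : Type) [NormedAddCommGroup E] [NormedSpace ℝ E] [NormedAddCommGroup F]
    [NormedSpace ℝ F] : Prop :=
  ∃ δ : ℝ → ℝ, (∀ ε ∈ Ioo (0 : ℝ) 1, 0 ≤ δ ε) ∧ Tendsto δ (𝓝[>] 0) (𝓝 0) ∧
    ∀ ε ∈ Ioo (0 : ℝ) 1, ∀ T : E →L[ℝ] F, EpsIsometric ε T →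
      ∃ V : E →L[ℝ] F, Isometric V ∧ ‖T - V‖ ≤ δ ε

/-- Property (B₂) for `B(E, F)`. -/
def PropertyB2 (E F : Type) [NormedAddCommGroup E] [NormedSpace ℝ E] [NormedAddCommGroup F]
    [NormedSpace ℝ F] [PartialOrder E] [PartialOrder F] : Prop :=
  ∃ δ : ℝ → ℝ, (∀ ε ∈ Ioo (0 : ℝ) 1, 0 ≤ δ ε) ∧ Tendsto δ (𝓝[>] 0) (𝓝 0) ∧
    ∀ ε ∈ Ioo (0 : ℝ) 1, ∀ T : E →L[ℝ] F, EpsIsometric ε T → Positive T →
      ∃ V : E →L[ℝ] F, Isometric V ∧ Positive V ∧ ‖T - V‖ ≤ δ ε

/-- For every `ε > 0` some positive `ε`-isometric operator `E → F` is at distance at least `1/2`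
from every isometric operator. -/
def FarFromIsometries (E F : Type) [NormedAddCommGroup E] [NormedSpace ℝ E]
    [NormedAddCommGroup F] [NormedSpace ℝ F] [PartialOrder E] [PartialOrder F] : Prop :=
  ∀ ε : ℝ, 0 < ε → ∃ T : E →L[ℝ] F, Positive T ∧ EpsIsometric ε T ∧
    ∀ V : E →L[ℝ] F, Isometric V → 1 / 2 ≤ ‖T - V‖

/-- The space `L^∞(Ω, Σ, μ)`: Mathlib's `Lp` with exponent `∞` and real scalars. -/
abbrev LInf {Ω : Type} [MeasurableSpace Ω] (μ : Measure Ω) : Type := Lp ℝ ∞ μ

/-! ## σ-algebras of sets determined by countably many coordinates -/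

/-- The σ-algebra of the sets determined by countably many of the coordinates `c · s`. -/
@[reducible] def mc {Ω J : Type} (c : Ω → J → ℝ) : MeasurableSpace Ω where
  MeasurableSet' E := ∃ S : Set J, S.Countable ∧
    ∀ ω ω', (∀ s ∈ S, c ω s = c ω' s) → (ω ∈ E ↔ ω' ∈ E)
  measurableSet_empty := ⟨∅, countable_empty, by simp⟩
  measurableSet_compl := by
    rintro E ⟨S, hS, h⟩
    exact ⟨S, hS, fun ω ω' hω => not_congr (h ω ω' hω)⟩
  measurableSet_iUnion := by
    intro f hf
    choose S hS h using hf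
    refine ⟨⋃ i, S i, countable_iUnion hS, fun ω ω' hω => ?_⟩
    simp only [mem_iUnion]
    refine exists_congr fun i => h i ω ω' fun s hs => hω s (mem_iUnion.2 ⟨i, hs⟩)

theorem mc_factor {Ω J : Type} (c : Ω → J → ℝ) {g : Ω → ℝ}
    (hg : @Measurable Ω ℝ (mc c) _ g) :
    ∃ S : Set J, S.Countable ∧ ∀ ω ω', (∀ s ∈ S, c ω s = c ω' s) → g ω = g ω' := by
  have h : ∀ q : ℚ, ∃ S : Set J, S.Countable ∧
      ∀ ω ω', (∀ s ∈ S, c ω s = c ω' s) → (g ω < q ↔ g ω' < q) := by
    intro q
    have h1 : @MeasurableSet Ω (mc c) (g ⁻¹' (Iio (q : ℝ))) := hg measurableSet_Iio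
    exact h1
  choose S hS h using h
  refine ⟨⋃ q, S q, countable_iUnion hS, fun ω ω' hω => ?_⟩
  have key : ∀ q : ℚ, (g ω < q ↔ g ω' < q) := fun q =>
    h q ω ω' fun s hs => hω s (mem_iUnion.2 ⟨q, hs⟩)
  apply le_antisymm
  · by_contra hlt
    push Not at hlt
    obtain ⟨q, h1, h2⟩ := exists_rat_btwn hlt
    exact absurd ((key q).2 h1) (not_lt.2 h2.le)
  · by_contra hlt
    push Not at hlt
    obtain ⟨q, h1, h2⟩ := exists_rat_btwn hlt
    exact absurd ((key q).1 h1) (not_lt.2 h2.le)

theorem mc_measurable {Ω J : Type} (c : Ω → J → ℝ) {g : Ω → ℝ}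
    (hg : ∃ S : Set J, S.Countable ∧ ∀ ω ω', (∀ s ∈ S, c ω s = c ω' s) → g ω = g ω') :
    @Measurable Ω ℝ (mc c) _ g := by
  obtain ⟨S, hS, h⟩ := hg
  intro E _
  refine ⟨S, hS, fun ω ω' hω => ?_⟩
  simp only [mem_preimage, h ω ω' hω]

/-! ## `L^∞` of a counting measure -/

section count

variable {X : Type} [MeasurableSpace X]

theorem ae_count_iff' {p : X → Prop} :
    (∀ᵐ x ∂(Measure.count : Measure X), p x) ↔ ∀ x, p x := by
  constructor
  · intro h x
    by_contra hx
    have h0 : (Measure.count : Measure X) {x | ¬ p x} = 0 := h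
    have h1 := Measure.le_count_apply (s := {x | ¬ p x}) (α := X)
    rw [h0] at h1
    have h2 : ∑' _ : {x | ¬ p x}, (1 : ℝ≥0∞) = 0 := le_antisymm h1 zero_le
    rw [ENNReal.tsum_eq_zero] at h2
    exact one_ne_zero (h2 ⟨x, hx⟩)
  · intro h
    exact Filter.Eventually.of_forall h

theorem abs_le_norm (f : Lp ℝ ∞ (Measure.count : Measure X)) (x : X) : |f x| ≤ ‖f‖ := by
  have h := ae_count_iff'.1 (ae_le_eLpNormEssSup (f := (f : X → ℝ))
    (μ := (Measure.count : Measure X))) x
  have hfin : eLpNormEssSup (f : X → ℝ) (Measure.count : Measure X) ≠ ∞ := by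
    have := Lp.eLpNorm_ne_top f
    rwa [eLpNorm_exponent_top] at this
  rw [Lp.norm_def, eLpNorm_exponent_top]
  have h2 := ENNReal.toReal_mono hfin h
  simpa using h2

theorem norm_le_of_forall (f : Lp ℝ ∞ (Measure.count : Measure X)) {C : ℝ} (hC : 0 ≤ C)
    (h : ∀ x, |f x| ≤ C) : ‖f‖ ≤ C := by
  rw [Lp.norm_def, eLpNorm_exponent_top]
  have h1 : eLpNormEssSup (f : X → ℝ) (Measure.count : Measure X) ≤ ENNReal.ofReal C :=
    eLpNormEssSup_le_of_ae_bound (ae_count_iff'.2 fun x => by simpa using h x)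
  calc (eLpNormEssSup (f : X → ℝ) (Measure.count : Measure X)).toReal
      ≤ (ENNReal.ofReal C).toReal := ENNReal.toReal_mono ENNReal.ofReal_ne_top h1
    _ = C := ENNReal.toReal_ofReal hC

/-- Evaluation at a point, a linear functional since null sets are empty. -/
noncomputable def ev (x : X) : Lp ℝ ∞ (Measure.count : Measure X) →ₗ[ℝ] ℝ where
  toFun f := f x
  map_add' f g := ae_count_iff'.1 (Lp.coeFn_add f g) x
  map_smul' c f := ae_count_iff'.1 (Lp.coeFn_smul c f) x

theorem lp_ext {f g : Lp ℝ ∞ (Measure.count : Measure X)} (h : ∀ x, ev x f = ev x g) : f = g :=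
  Lp.ext (ae_count_iff'.2 h)

theorem memLp_of {g : X → ℝ} (hg : Measurable g) (C : ℝ) (hC : ∀ x, |g x| ≤ C) :
    MemLp g ∞ (Measure.count : Measure X) :=
  memLp_top_of_bound hg.aestronglyMeasurable C (ae_count_iff'.2 fun x => by simpa using hC x)

theorem ev_toLp {g : X → ℝ} (hg : MemLp g ∞ (Measure.count : Measure X)) (x : X) :
    ev x (hg.toLp g) = g x :=
  ae_count_iff'.1 hg.coeFn_toLp x

theorem nonneg_iff (f : Lp ℝ ∞ (Measure.count : Measure X)) : 0 ≤ f ↔ ∀ x, 0 ≤ ev x f := by
  rw [← Lp.coeFn_nonneg]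
  exact ae_count_iff'

theorem measurable_ev (f : Lp ℝ ∞ (Measure.count : Measure X)) :
    Measurable (fun x => ev x f) :=
  (Lp.stronglyMeasurable f).measurable

end count

/-! ## The two spaces -/

/-- Auxiliary indices. -/
abbrev N : Type := Set ℝ

/-- Labels of the main indices. -/
abbrev Main : Type := (ℝ → N) × Set (N × ℕ)

/-- The index set, the first measure space. -/
inductive Idx : Type
  | aux : N → Idx
  | main : Main → Idx

/-- The coordinates of an index. -/
noncomputable def c₁ (x s : Idx) : ℝ := by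
  classical
  exact if x = s then 1 else 0

noncomputable instance instIdx : MeasurableSpace Idx := mc c₁

/-- The points of the second measure space: a level and either a pair or a sequence. -/
structure Pt : Type where
  lev : ℕ
  pt : (Main × N) ⊕ (ℕ → N)

/-- The small weight at level `n`. -/
noncomputable def wt (n : ℕ) : ℝ := 1 / ((n : ℝ) + 1)

/-- The finitely supported probability measure attached to a point. -/
noncomputable def W (n : ℕ) : (Main × N) ⊕ (ℕ → N) → (Idx →₀ ℝ)
  | Sum.inl (i, j) => by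
      classical
      exact if j ∈ range i.1 then Finsupp.single (Idx.aux j) 1
        else Finsupp.single (Idx.main i) (1 - wt n) + Finsupp.single (Idx.aux j) (wt n)
  | Sum.inr s => ∑ k ∈ Finset.range (n + 1), Finsupp.single (Idx.aux (s k)) (wt n)

/-- The coordinates of a point. -/
noncomputable def c₂ (ω : Pt) : Option Idx → ℝ
  | none => ω.lev
  | some x => W ω.lev ω.pt x

noncomputable instance instPt : MeasurableSpace Pt := mc c₂

abbrev E₁ : Type := Lp ℝ ∞ (Measure.count : Measure Idx)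
abbrev E₂ : Type := Lp ℝ ∞ (Measure.count : Measure Pt)

/-- Integration of a function against a finitely supported measure. -/
noncomputable def LC (f : E₁) : (Idx →₀ ℝ) →ₗ[ℝ] ℝ :=
  Finsupp.linearCombination ℝ (fun x => ev x f)

theorem LC_single (f : E₁) (x : Idx) (a : ℝ) : LC f (Finsupp.single x a) = a * ev x f := by
  simp [LC, Finsupp.linearCombination_single]

theorem wt_pos (n : ℕ) : 0 < wt n := by unfold wt; positivity

theorem wt_le (n : ℕ) : wt n ≤ 1 := by
  unfold wt
  rw [div_le_one (by positivity)]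
  have : (0 : ℝ) ≤ n := n.cast_nonneg
  linarith

theorem wt_mul (n : ℕ) : ((n : ℝ) + 1) * wt n = 1 := by
  unfold wt
  have : (0 : ℝ) < (n : ℝ) + 1 := by positivity
  field_simp

theorem W_inl_mem (n : ℕ) (i : Main) (j : N) (h : j ∈ range i.1) :
    W n (Sum.inl (i, j)) = Finsupp.single (Idx.aux j) 1 := by
  simp only [W]
  exact if_pos h

theorem W_inl_not (n : ℕ) (i : Main) (j : N) (h : j ∉ range i.1) :
    W n (Sum.inl (i, j)) =
      Finsupp.single (Idx.main i) (1 - wt n) + Finsupp.single (Idx.aux j) (wt n) := by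
  simp only [W]
  exact if_neg h

theorem LC_bound (f : E₁) (n : ℕ) (p : (Main × N) ⊕ (ℕ → N)) {C : ℝ}
    (hC : ∀ x, |ev x f| ≤ C) : |LC f (W n p)| ≤ C := by
  have h0 := wt_pos n
  have h1 := wt_le n
  rcases p with ⟨i, j⟩ | s
  · by_cases h : j ∈ range i.1
    · rw [W_inl_mem n i j h, LC_single, one_mul]
      exact hC _
    · rw [W_inl_not n i j h, map_add, LC_single, LC_single]
      calc |(1 - wt n) * ev (Idx.main i) f + wt n * ev (Idx.aux j) f|
          ≤ |(1 - wt n) * ev (Idx.main i) f| + |wt n * ev (Idx.aux j) f| := abs_add_le _ _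
        _ = (1 - wt n) * |ev (Idx.main i) f| + wt n * |ev (Idx.aux j) f| := by
            rw [abs_mul, abs_mul, abs_of_nonneg (by linarith : 0 ≤ 1 - wt n),
              abs_of_pos h0]
        _ ≤ (1 - wt n) * C + wt n * C :=
            add_le_add (mul_le_mul_of_nonneg_left (hC _) (by linarith))
              (mul_le_mul_of_nonneg_left (hC _) h0.le)
        _ = C := by ring
  · simp only [W, map_sum, LC_single]
    calc |∑ k ∈ Finset.range (n + 1), wt n * ev (Idx.aux (s k)) f|
        ≤ ∑ k ∈ Finset.range (n + 1), |wt n * ev (Idx.aux (s k)) f| :=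
          Finset.abs_sum_le_sum_abs _ _
      _ ≤ ∑ _k ∈ Finset.range (n + 1), wt n * C := by
          refine Finset.sum_le_sum fun k _ => ?_
          rw [abs_mul, abs_of_pos h0]
          exact mul_le_mul_of_nonneg_left (hC _) h0.le
      _ = C := by
          rw [Finset.sum_const, Finset.card_range, nsmul_eq_mul, ← mul_assoc]
          push_cast
          rw [wt_mul, one_mul]

theorem LC_nonneg (f : E₁) (n : ℕ) (p : (Main × N) ⊕ (ℕ → N))
    (hf : ∀ x, 0 ≤ ev x f) : 0 ≤ LC f (W n p) := by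
  have h0 := wt_pos n
  have h1 := wt_le n
  rcases p with ⟨i, j⟩ | s
  · by_cases h : j ∈ range i.1
    · rw [W_inl_mem n i j h, LC_single, one_mul]
      exact hf _
    · rw [W_inl_not n i j h, map_add, LC_single, LC_single]
      exact add_nonneg (mul_nonneg (by linarith) (hf _)) (mul_nonneg h0.le (hf _))
  · simp only [W, map_sum, LC_single]
    exact Finset.sum_nonneg fun k _ => mul_nonneg h0.le (hf _)

/-- Total mass. -/
noncomputable def tot : (Idx →₀ ℝ) →ₗ[ℝ] ℝ := Finsupp.linearCombination ℝ (fun _ => (1 : ℝ))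

theorem tot_W (n : ℕ) (p : (Main × N) ⊕ (ℕ → N)) : tot (W n p) = 1 := by
  rcases p with ⟨i, j⟩ | s
  · by_cases h : j ∈ range i.1
    · rw [W_inl_mem n i j h]
      simp [tot, Finsupp.linearCombination_single]
    · rw [W_inl_not n i j h]
      simp [tot, Finsupp.linearCombination_single]
  · simp only [W, map_sum, tot, Finsupp.linearCombination_single, smul_eq_mul, mul_one,
      Finset.sum_const, Finset.card_range, nsmul_eq_mul]
    push_cast
    exact wt_mul n

instance : Uncountable N := by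
  refine ⟨fun h => ?_⟩
  obtain ⟨g, hg⟩ := h.exists_injective_nat
  exact Function.cantor_injective (fun s : Set ℝ => ((g s : ℕ) : ℝ))
    (fun a b hab => hg (Nat.cast_injective hab))

instance : Uncountable Idx :=
  Function.Injective.uncountable (f := Idx.aux) (fun a b h => by injection h)

theorem f_factor (f : E₁) : ∃ S : Set Idx, S.Countable ∧ ∃ c : ℝ, ∀ x ∉ S, ev x f = c := by
  obtain ⟨S, hS, h⟩ := mc_factor c₁ (measurable_ev f)
  obtain ⟨x₀, hx₀⟩ : ∃ x₀, x₀ ∉ S := by
    by_contra hcon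
    push Not at hcon
    exact not_countable_univ (α := Idx) (hS.mono fun x _ => hcon x)
  refine ⟨S, hS, ev x₀ f, fun x hx => h x x₀ fun s hs => ?_⟩
  have h1 : x ≠ s := fun e => hx (e ▸ hs)
  have h2 : x₀ ≠ s := fun e => hx₀ (e ▸ hs)
  simp [c₁, h1, h2]

/-- The function `T_n f`. -/
noncomputable def Tfun (n : ℕ) (f : E₁) (ω : Pt) : ℝ :=
  if ω.lev = n then LC f (W n ω.pt) else 0

theorem LC_eq_of_agree (f : E₁) (S : Set Idx) (c : ℝ) (hS : ∀ x ∉ S, ev x f = c)
    (P Q : Idx →₀ ℝ) (h : ∀ s ∈ S, P s = Q s) (ht : tot P = tot Q) : LC f P = LC f Q := by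
  have h1 : ∀ D : Idx →₀ ℝ, (∀ s ∈ S, D s = 0) → LC f D = c * tot D := by
    intro D hD
    simp only [LC, tot, Finsupp.linearCombination_apply, Finsupp.sum, smul_eq_mul, mul_one]
    rw [Finset.mul_sum]
    refine Finset.sum_congr rfl fun x _ => ?_
    by_cases hx : x ∈ S
    · rw [hD x hx]; ring
    · rw [hS x hx]; ring
  have h2 := h1 (P - Q) (fun s hs => by rw [Finsupp.sub_apply, h s hs, sub_self])
  rw [map_sub, map_sub, ht, sub_self, mul_zero] at h2
  linarith

theorem Tfun_measurable (n : ℕ) (f : E₁) : Measurable (Tfun n f) := by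
  obtain ⟨S, hS, c, hc⟩ := f_factor f
  refine mc_measurable c₂ ⟨insert none (some '' S), (hS.image _).insert _, ?_⟩
  intro ω ω' h
  have hlev : ω.lev = ω'.lev := by
    have := h none (mem_insert _ _)
    simp only [c₂] at this
    exact_mod_cast this
  unfold Tfun
  by_cases hn : ω.lev = n
  · rw [if_pos hn, if_pos (hlev ▸ hn)]
    refine LC_eq_of_agree f S c hc _ _ (fun s hs => ?_) ?_
    · have := h (some s) (mem_insert_of_mem _ (mem_image_of_mem _ hs))
      simp only [c₂] at this
      rw [← hlev, hn] at this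
      exact this
    · rw [tot_W, tot_W]
  · rw [if_neg hn, if_neg (hlev ▸ hn)]

theorem Tfun_bound (n : ℕ) (f : E₁) (ω : Pt) : |Tfun n f ω| ≤ ‖f‖ := by
  unfold Tfun
  split_ifs
  · exact LC_bound f n _ (fun x => abs_le_norm f x)
  · simp

theorem Tfun_memLp (n : ℕ) (f : E₁) : MemLp (Tfun n f) ∞ (Measure.count : Measure Pt) :=
  memLp_of (Tfun_measurable n f) ‖f‖ (Tfun_bound n f)

theorem LC_add (f g : E₁) (D : Idx →₀ ℝ) : LC (f + g) D = LC f D + LC g D := by
  simp only [LC, Finsupp.linearCombination_apply, Finsupp.sum, map_add, smul_eq_mul, mul_add,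
    Finset.sum_add_distrib]

theorem LC_smul (a : ℝ) (f : E₁) (D : Idx →₀ ℝ) : LC (a • f) D = a * LC f D := by
  simp only [LC, Finsupp.linearCombination_apply, Finsupp.sum, map_smul, smul_eq_mul,
    Finset.mul_sum]
  exact Finset.sum_congr rfl fun x _ => by ring

/-- The operators `T_n`. -/
noncomputable def T (n : ℕ) : E₁ →L[ℝ] E₂ :=
  LinearMap.mkContinuous
    { toFun := fun f => (Tfun_memLp n f).toLp (Tfun n f)
      map_add' := fun f g => by
        refine lp_ext fun ω => ?_
        rw [map_add, ev_toLp, ev_toLp, ev_toLp]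
        unfold Tfun
        split_ifs
        · exact LC_add f g _
        · simp
      map_smul' := fun a f => by
        refine lp_ext fun ω => ?_
        rw [map_smul, ev_toLp, ev_toLp]
        unfold Tfun
        simp only [RingHom.id_apply, smul_eq_mul]
        split_ifs
        · exact LC_smul a f _
        · simp }
    1 (fun f => by
        rw [one_mul]
        refine norm_le_of_forall _ (norm_nonneg _) fun ω => ?_
        have := ev_toLp (Tfun_memLp n f) ω
        change |ev ω _| ≤ _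
        change |ev ω ((Tfun_memLp n f).toLp (Tfun n f))| ≤ _
        rw [this]
        exact Tfun_bound n f ω)

theorem ev_T (n : ℕ) (f : E₁) (ω : Pt) : ev ω (T n f) = Tfun n f ω :=
  ev_toLp (Tfun_memLp n f) ω

theorem T_pos (n : ℕ) : Positive (T n) := by
  intro f hf
  rw [nonneg_iff] at hf ⊢
  intro ω
  rw [ev_T]
  unfold Tfun
  split_ifs
  · exact LC_nonneg f n _ hf
  · exact le_rfl

theorem T_norm_le (n : ℕ) (f : E₁) : ‖T n f‖ ≤ ‖f‖ :=
  norm_le_of_forall _ (norm_nonneg _) fun ω => by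
    have := ev_T n f ω
    change |ev ω _| ≤ _
    rw [this]
    exact Tfun_bound n f ω

theorem exists_not_mem (y : ℝ → N) : ∃ j, j ∉ range y := by
  by_contra hcon
  push Not at hcon
  exact Function.cantor_surjective y hcon

theorem T_lower (n : ℕ) (f : E₁) : (1 - 2 * wt n) * ‖f‖ ≤ ‖T n f‖ := by
  have h0 := wt_pos n
  have h1 := wt_le n
  set C := ‖T n f‖ with hC
  have hTf : ∀ p, |LC f (W n p)| ≤ C := by
    intro p
    have h := abs_le_norm (T n f) ⟨n, p⟩
    have h' : |ev (⟨n, p⟩ : Pt) (T n f)| ≤ C := h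
    rw [ev_T] at h'
    simpa [Tfun] using h'
  have haux : ∀ j : N, |ev (Idx.aux j) f| ≤ C := by
    intro j
    have h := hTf (Sum.inl ((fun _ => j, ∅), j))
    rw [W_inl_mem n _ j ⟨0, rfl⟩, LC_single, one_mul] at h
    exact h
  have hb : ∀ x, (1 - wt n) * |ev x f| ≤ C + wt n * ‖f‖ := by
    intro x
    rcases x with j | i
    · have := haux j
      have h3 : (1 - wt n) * |ev (Idx.aux j) f| ≤ 1 * |ev (Idx.aux j) f| :=
        mul_le_mul_of_nonneg_right (by linarith) (abs_nonneg _)
      have h4 : 0 ≤ wt n * ‖f‖ := mul_nonneg h0.le (norm_nonneg _)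
      linarith
    · obtain ⟨j, hj⟩ := exists_not_mem i.1
      have h := hTf (Sum.inl (i, j))
      rw [W_inl_not n i j hj, map_add, LC_single, LC_single] at h
      have h5 : |(1 - wt n) * ev (Idx.main i) f| = (1 - wt n) * |ev (Idx.main i) f| := by
        rw [abs_mul, abs_of_nonneg (by linarith : 0 ≤ 1 - wt n)]
      have h6 : |wt n * ev (Idx.aux j) f| ≤ wt n * ‖f‖ := by
        rw [abs_mul, abs_of_pos h0]
        exact mul_le_mul_of_nonneg_left (abs_le_norm f _) h0.le
      have h7 := abs_sub_abs_le_abs_sub ((1 - wt n) * ev (Idx.main i) f)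
        (-(wt n * ev (Idx.aux j) f))
      rw [abs_neg, sub_neg_eq_add] at h7
      linarith
  by_cases hn : wt n = 1
  · have : (1 - 2 * wt n) * ‖f‖ ≤ 0 := by
      rw [hn]; nlinarith [norm_nonneg f]
    exact this.trans (norm_nonneg _)
  · have hlt : 0 < 1 - wt n := by
      rcases lt_or_eq_of_le h1 with h | h
      · linarith
      · exact absurd h hn
    have h8 : ‖f‖ ≤ (C + wt n * ‖f‖) / (1 - wt n) := by
      refine norm_le_of_forall f (by positivity) fun x => ?_
      rw [le_div_iff₀ hlt]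
      have := hb x
      calc |f x| * (1 - wt n) = (1 - wt n) * |ev x f| := by rw [mul_comm]; rfl
        _ ≤ _ := this
    rw [le_div_iff₀ hlt] at h8
    nlinarith

/-! ## Indicators of finite sets of indices -/

open Classical in
theorem ind_measurable (t : Finset Idx) :
    Measurable (fun x : Idx => if x ∈ t then (1 : ℝ) else 0) := by
  refine mc_measurable c₁ ⟨↑t, t.countable_toSet, fun x x' h => ?_⟩
  by_cases hx : x ∈ t
  · have h1 := h x hx
    have h2 : x' = x := by
      by_contra hne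
      simp [c₁, hne] at h1
    rw [h2]
  · by_cases hx' : x' ∈ t
    · have h1 := h x' hx'
      have h2 : x = x' := by
        by_contra hne
        simp [c₁, hne] at h1
      rw [h2]
    · simp [hx, hx']

open Classical in
theorem ind_memLp (t : Finset Idx) :
    MemLp (fun x : Idx => if x ∈ t then (1 : ℝ) else 0) ∞ (Measure.count : Measure Idx) :=
  memLp_of (ind_measurable t) 1 fun x => by split_ifs <;> simp

open Classical in
/-- The indicator function of a finite set. -/
noncomputable def ind (t : Finset Idx) : E₁ := (ind_memLp t).toLp _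

open Classical in
theorem ev_ind (t : Finset Idx) (x : Idx) : ev x (ind t) = if x ∈ t then 1 else 0 :=
  ev_toLp (ind_memLp t) x

open Classical in
theorem ind_eq_sum (t : Finset Idx) : ind t = ∑ x ∈ t, ind {x} := by
  refine lp_ext fun z => ?_
  rw [map_sum, ev_ind]
  simp only [ev_ind, Finset.mem_singleton]
  rw [Finset.sum_ite_eq]

theorem norm_ind_le (t : Finset Idx) : ‖ind t‖ ≤ 1 :=
  norm_le_of_forall _ zero_le_one fun x => by
    change |ev x (ind t)| ≤ 1
    rw [ev_ind]
    split_ifs <;> simp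

theorem norm_ind_single (x : Idx) : ‖ind {x}‖ = 1 := by
  refine le_antisymm (norm_ind_le _) ?_
  have h := abs_le_norm (ind {x}) x
  have h' : |ev x (ind {x})| ≤ ‖ind {x}‖ := h
  rw [ev_ind] at h'
  simpa using h'

theorem norm_ind_pair {x y : Idx} (hxy : x ≠ y) :
    ‖ind {x} + ind {y}‖ ≤ 1 ∧ ‖ind {x} - ind {y}‖ ≤ 1 := by
  classical
  have hv : ∀ z : Idx, (ev z (ind {x}) = 1 ∧ ev z (ind {y}) = 0) ∨
      (ev z (ind {x}) = 0 ∧ ev z (ind {y}) = 1) ∨
      (ev z (ind {x}) = 0 ∧ ev z (ind {y}) = 0) := by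
    intro z
    by_cases h1 : z = x
    · left
      rw [ev_ind, ev_ind]
      refine ⟨if_pos (by simp [h1]), if_neg ?_⟩
      rw [Finset.mem_singleton, h1]
      exact hxy
    · right
      by_cases h2 : z = y
      · left
        rw [ev_ind, ev_ind]
        exact ⟨if_neg (by simpa using h1), if_pos (by simp [h2])⟩
      · right
        rw [ev_ind, ev_ind]
        exact ⟨if_neg (by simpa using h1), if_neg (by simpa using h2)⟩
  constructor
  · refine norm_le_of_forall _ zero_le_one fun z => ?_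
    change |ev z _| ≤ 1
    rw [map_add]
    rcases hv z with ⟨h1, h2⟩ | ⟨h1, h2⟩ | ⟨h1, h2⟩ <;> rw [h1, h2] <;> simp
  · refine norm_le_of_forall _ zero_le_one fun z => ?_
    change |ev z _| ≤ 1
    rw [map_sub]
    rcases hv z with ⟨h1, h2⟩ | ⟨h1, h2⟩ | ⟨h1, h2⟩ <;> rw [h1, h2] <;> simp

/-! ## Free sets -/

theorem cover_of_small (Z : Set N) (h : #Z ≤ 𝔠) : ∃ y : ℝ → N, Z ⊆ range y := by
  rw [← Cardinal.mk_real] at h
  obtain ⟨g⟩ := Cardinal.le_def _ _ |>.1 h
  rcases Z.eq_empty_or_nonempty with hZ | ⟨z₀, hz₀⟩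
  · exact ⟨fun _ => ∅, by rw [hZ]; exact empty_subset _⟩
  · have : Nonempty Z := ⟨⟨z₀, hz₀⟩⟩
    refine ⟨fun r => (Function.invFun g r : Z), fun z hz => ⟨g ⟨z, hz⟩, ?_⟩⟩
    simp only [Function.leftInverse_invFun g.injective ⟨z, hz⟩]

theorem free_sets (S : N → Set N) (hS : ∀ j, (S j).Countable) (n : ℕ) :
    ∀ Z : Set N, ¬ #Z ≤ 𝔠 → ∃ t : Finset N, t.card = n ∧ ↑t ⊆ Z ∧
      ∀ j ∈ t, ∀ k ∈ t, j ≠ k → k ∉ S j := by
  classical
  induction n with
  | zero => intro Z _; exact ⟨∅, by simp, by simp, by simp⟩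
  | succ n ih =>
    intro Z hZ
    have h1 : #ℝ ≤ #Z := by
      rw [Cardinal.mk_real]
      exact (not_le.1 hZ).le
    obtain ⟨g⟩ := Cardinal.le_def _ _ |>.1 h1
    set g' : ℝ → N := fun r => (g r : N) with hg'
    have hg'inj : Function.Injective g' := fun a b hab => g.injective (Subtype.ext hab)
    set C : Set N := (⋃ r : ℝ, S (g' r)) ∪ range g' with hCdef
    have hC : #C ≤ 𝔠 := by
      refine (Cardinal.mk_union_le _ _).trans ?_
      have h2 : #(⋃ r : ℝ, S (g' r)) ≤ 𝔠 := by
        refine (Cardinal.mk_iUnion_le _).trans ?_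
        rw [Cardinal.mk_real]
        have h3 : (⨆ i : ℝ, #(S (g' i))) ≤ 𝔠 := by
          refine ciSup_le' fun i => ?_
          exact ((Cardinal.le_aleph0_iff_set_countable).2 (hS _)).trans
            Cardinal.aleph0_le_continuum
        calc 𝔠 * (⨆ i : ℝ, #(S (g' i))) ≤ 𝔠 * 𝔠 := by gcongr
          _ = 𝔠 := Cardinal.continuum_mul_self
      have h4 : #(range g') ≤ 𝔠 := by
        rw [← Cardinal.mk_real]
        exact Cardinal.mk_range_le
      calc _ ≤ 𝔠 + 𝔠 := add_le_add h2 h4
        _ = 𝔠 := Cardinal.continuum_add_self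
    have hZC : ¬ #(Z \ C : Set N) ≤ 𝔠 := by
      intro hcon
      apply hZ
      have : Z ⊆ (Z \ C) ∪ C := fun z hz => by
        by_cases hz' : z ∈ C
        · exact Or.inr hz'
        · exact Or.inl ⟨hz, hz'⟩
      calc #Z ≤ #((Z \ C) ∪ C : Set N) := Cardinal.mk_le_mk_of_subset this
        _ ≤ #(Z \ C : Set N) + #C := Cardinal.mk_union_le _ _
        _ ≤ 𝔠 + 𝔠 := add_le_add hcon hC
        _ = 𝔠 := Cardinal.continuum_add_self
    obtain ⟨t, htc, htZ, htf⟩ := ih _ hZC
    have hcount : (⋃ k ∈ t, S k).Countable :=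
      t.countable_toSet.biUnion fun k _ => hS k
    have hpre : (g' ⁻¹' (⋃ k ∈ t, S k)).Countable :=
      hcount.preimage_of_injOn hg'inj.injOn
    obtain ⟨r, hr⟩ : ∃ r : ℝ, r ∉ g' ⁻¹' (⋃ k ∈ t, S k) := by
      by_contra hcon
      push Not at hcon
      exact not_countable_univ (α := ℝ) (hpre.mono fun x _ => hcon x)
    have hrt : g' r ∉ t := by
      intro hmem
      exact (htZ hmem).2 (Or.inr ⟨r, rfl⟩)
    refine ⟨insert (g' r) t, ?_, ?_, ?_⟩
    · rw [Finset.card_insert_of_notMem hrt, htc]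
    · intro z hz
      rw [Finset.coe_insert] at hz
      rcases hz with rfl | hz
      · exact (g r).2
      · exact (htZ hz).1
    · intro j hj k hk hjk
      rw [Finset.mem_insert] at hj hk
      rcases hj with rfl | hj
      · rcases hk with rfl | hk
        · exact absurd rfl hjk
        · intro hmem
          exact (htZ hk).2 (Or.inl (mem_iUnion.2 ⟨r, hmem⟩))
      · rcases hk with rfl | hk
        · intro hmem
          exact hr (mem_iUnion₂.2 ⟨j, hj, hmem⟩)
        · exact htf j hj k hk hjk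

/-! ## Isometries stay away from `T_n` -/

theorem isom_far (n : ℕ) (hn : 1 ≤ n) (V : E₁ →L[ℝ] E₂) (hV : Isometric V) :
    1 / 2 ≤ ‖T n - V‖ := by
  classical
  by_contra hcon
  push Not at hcon
  have hdiff : ∀ (f : E₁) (ω : Pt), |ev ω (T n f) - ev ω (V f)| ≤ ‖T n - V‖ * ‖f‖ := by
    intro f ω
    have h1 : ev ω (T n f) - ev ω (V f) = ev ω ((T n - V) f) := by
      rw [sub_apply, map_sub]
    rw [h1]
    exact (abs_le_norm ((T n - V) f) ω).trans ((T n - V).le_opNorm f)
  set τ : ℝ := 1 / (4 * ((n : ℝ) + 1)) with hτ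
  have hτpos : 0 < τ := by positivity
  have hτle : τ ≤ 1 / 8 := by
    rw [hτ]
    apply one_div_le_one_div_of_le (by norm_num)
    have : (1 : ℝ) ≤ n := by exact_mod_cast hn
    linarith
  -- countable supports
  have hfac : ∀ x : Idx, ∃ S : Set (Option Idx), S.Countable ∧
      ∀ ω ω', (∀ s ∈ S, c₂ ω s = c₂ ω' s) → ev ω (V (ind {x})) = ev ω' (V (ind {x})) :=
    fun x => mc_factor c₂ (measurable_ev _)
  choose S hS hSf using hfac
  -- bad auxiliary indices
  set Z : Set N := {j | ∃ i : Main, j ∉ range i.1 ∧ some (Idx.main i) ∉ S (Idx.aux j) ∧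
    |ev (⟨n, Sum.inl (i, j)⟩ : Pt) (V (ind {Idx.aux j}))| ≤ τ} with hZdef
  have hZ : ∀ y : ℝ → N, ¬ Z ⊆ range y := by
    intro y hy
    have hpick : ∀ ξ : Set (N × ℕ), ∃ j : N, j ∉ range y ∧
        |ev (⟨n, Sum.inl ((y, ξ), j)⟩ : Pt) (V (ind {Idx.aux j}))| ≤ τ := by
      intro ξ
      set i : Main := (y, ξ) with hi
      have hnorm : ‖V (ind {Idx.main i})‖ = 1 := by rw [hV, norm_ind_single]
      obtain ⟨ω, hω⟩ : ∃ ω : Pt, 1 - τ < |ev ω (V (ind {Idx.main i}))| := by
        by_contra hc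
        push Not at hc
        have := norm_le_of_forall (V (ind {Idx.main i})) (by linarith) hc
        linarith
      have hT1 : ev ω (T n (ind {Idx.main i})) ≠ 0 := by
        intro h0
        have h1 := hdiff (ind {Idx.main i}) ω
        rw [h0, zero_sub, abs_neg, norm_ind_single, mul_one] at h1
        linarith
      rw [ev_T] at hT1
      obtain ⟨lev, pt⟩ := ω
      have hlev : lev = n := by
        by_contra hne
        apply hT1
        simp [Tfun, hne]
      subst hlev
      rcases pt with ⟨i', j⟩ | s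
      · by_cases hj : j ∈ range i'.1
        · exfalso
          apply hT1
          simp only [Tfun, if_true]
          rw [W_inl_mem _ i' j hj, LC_single, ev_ind]
          simp
        · have hii : i' = i := by
            by_contra hne
            apply hT1
            simp only [Tfun, if_true]
            rw [W_inl_not _ i' j hj, map_add, LC_single, LC_single, ev_ind, ev_ind]
            simp [hne]
          subst hii
          refine ⟨j, hj, ?_⟩
          have hne : Idx.main (y, ξ) ≠ Idx.aux j := by simp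
          obtain ⟨h1, h2⟩ := norm_ind_pair hne
          rw [← hV] at h1 h2
          have h3 := (abs_le_norm _ (⟨lev, Sum.inl ((y, ξ), j)⟩ : Pt)).trans h1
          have h4 := (abs_le_norm _ (⟨lev, Sum.inl ((y, ξ), j)⟩ : Pt)).trans h2
          have h3' : |ev (⟨lev, Sum.inl ((y, ξ), j)⟩ : Pt) (V (ind {Idx.main (y, ξ)}))
              + ev (⟨lev, Sum.inl ((y, ξ), j)⟩ : Pt) (V (ind {Idx.aux j}))| ≤ 1 := by
            rw [← map_add, ← map_add]; exact h3
          have h4' : |ev (⟨lev, Sum.inl ((y, ξ), j)⟩ : Pt) (V (ind {Idx.main (y, ξ)}))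
              - ev (⟨lev, Sum.inl ((y, ξ), j)⟩ : Pt) (V (ind {Idx.aux j}))| ≤ 1 := by
            rw [← map_sub, ← map_sub]; exact h4
          rw [abs_le] at h3' h4' ⊢
          have hω' : 1 - τ < |ev (⟨lev, Sum.inl ((y, ξ), j)⟩ : Pt)
            (V (ind {Idx.main (y, ξ)}))| := hω
          rcases le_or_gt 0 (ev (⟨lev, Sum.inl ((y, ξ), j)⟩ : Pt)
            (V (ind {Idx.main (y, ξ)}))) with hs | hs
          · rw [abs_of_nonneg hs] at hω'
            constructor <;> linarith [h3'.1, h3'.2, h4'.1, h4'.2]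
          · rw [abs_of_neg hs] at hω'
            constructor <;> linarith [h3'.1, h3'.2, h4'.1, h4'.2]
      · exfalso
        apply hT1
        simp only [Tfun, if_true, W, map_sum, LC_single, ev_ind]
        simp
    choose φ hφ1 hφ2 using hpick
    -- some ξ has its main index outside the support
    obtain ⟨ξ, hξ⟩ : ∃ ξ : Set (N × ℕ), some (Idx.main (y, ξ)) ∉ S (Idx.aux (φ ξ)) := by
      by_contra hc
      push Not at hc
      have henum : ∀ j : N, ∃ e : Option Idx → ℕ, InjOn e (S (Idx.aux j)) := fun j =>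
        (countable_iff_exists_injOn).1 (hS (Idx.aux j))
      choose e he using henum
      refine Function.cantor_injective
        (fun ξ : Set (N × ℕ) => (φ ξ, e (φ ξ) (some (Idx.main (y, ξ))))) ?_
      intro ξ ξ' hEq
      simp only [Prod.mk.injEq] at hEq
      obtain ⟨h1, h2⟩ := hEq
      have h3 := hc ξ
      have h4 := hc ξ'
      rw [h1] at h2 h3
      have h5 := he _ h3 h4 h2
      simp only [Option.some.injEq, Idx.main.injEq, Prod.mk.injEq, true_and] at h5
      exact h5
    have hmem : φ ξ ∈ Z := ⟨(y, ξ), hφ1 ξ, hξ, hφ2 ξ⟩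
    exact hφ1 ξ (hy hmem)
  have hZcard : ¬ #Z ≤ 𝔠 := fun h => by
    obtain ⟨y, hy⟩ := cover_of_small Z h
    exact hZ y hy
  obtain ⟨t, htc, htZ, htf⟩ := free_sets (fun j => {k | some (Idx.aux k) ∈ S (Idx.aux j)})
    (fun j => (hS (Idx.aux j)).preimage_of_injOn
      (f := fun k : N => some (Idx.aux k)) (by
        intro a _ b _ h
        simpa using h)) (n + 1) Z hZcard
  -- enumerate t
  obtain ⟨s, hs_inj, hs_mem⟩ : ∃ s : ℕ → N, InjOn s (Finset.range (n + 1) : Set ℕ) ∧
      ∀ k ∈ Finset.range (n + 1), s k ∈ t := by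
    have e := t.equivFinOfCardEq htc
    refine ⟨fun k => if h : k < n + 1 then (e.symm ⟨k, h⟩ : N) else ∅, ?_, ?_⟩
    · intro a ha b hb hab
      have ha' : a < n + 1 := Finset.mem_range.1 ha
      have hb' : b < n + 1 := Finset.mem_range.1 hb
      simp only [ha', hb', dif_pos] at hab
      have := e.symm.injective (Subtype.ext hab)
      simpa using this
    · intro k hk
      have hk' : k < n + 1 := Finset.mem_range.1 hk
      simp only [hk', dif_pos]
      exact (e.symm ⟨k, hk'⟩).2
  set ωF : Pt := ⟨n, Sum.inr s⟩ with hωF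
  -- small values
  have hsmall : ∀ k ∈ Finset.range (n + 1), |ev ωF (V (ind {Idx.aux (s k)}))| ≤ τ := by
    intro k hk
    obtain ⟨i, hi1, hi2, hi3⟩ := htZ (hs_mem k hk)
    have heq : ev ωF (V (ind {Idx.aux (s k)})) =
        ev (⟨n, Sum.inl (i, s k)⟩ : Pt) (V (ind {Idx.aux (s k)})) := by
      refine hSf (Idx.aux (s k)) _ _ fun z hz => ?_
      rcases z with _ | x
      · rfl
      · simp only [c₂, hωF]
        rw [W_inl_not n i (s k) hi1]
        simp only [W, Finsupp.coe_finsetSum, Finset.sum_apply, Finsupp.coe_add, Pi.add_apply,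
          Finsupp.single_apply]
        rcases x with j | i'
        · by_cases hj : j = s k
          · subst hj
            simp only [Idx.aux.injEq, reduceCtorEq, if_false, zero_add, if_true]
            rw [Finset.sum_eq_single_of_mem k hk]
            · simp
            · intro b hb hbk
              rw [if_neg]
              intro hbe
              exact hbk (hs_inj (by simpa using hb) (by simpa using hk) hbe)
          · have hjt : ∀ b ∈ Finset.range (n + 1), s b ≠ j := by
              intro b hb hbe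
              have hne : s k ≠ s b := fun h => hj (by rw [← hbe, h])
              exact htf (s k) (hs_mem k hk) (s b) (hs_mem b hb) hne (by
                rw [hbe]; exact hz)
            simp only [Idx.aux.injEq, reduceCtorEq, if_false, zero_add]
            rw [if_neg (fun h => hj h.symm)]
            refine Finset.sum_eq_zero fun b hb => ?_
            rw [if_neg (hjt b hb)]
        · have hne : i ≠ i' := by
            rintro rfl
            exact hi2 hz
          simp [hne]
    rw [heq]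
    exact hi3
  -- the full sum
  set tI : Finset Idx := (Finset.range (n + 1)).image (fun k => Idx.aux (s k)) with htI
  have hinj2 : InjOn (fun k => Idx.aux (s k)) (Finset.range (n + 1) : Set ℕ) := by
    intro a ha b hb hab
    simp only [Idx.aux.injEq] at hab
    exact hs_inj ha hb hab
  have hVsum : ev ωF (V (ind tI)) = ∑ k ∈ Finset.range (n + 1),
      ev ωF (V (ind {Idx.aux (s k)})) := by
    rw [ind_eq_sum, map_sum, map_sum, htI, Finset.sum_image hinj2]
  have hVabs : |ev ωF (V (ind tI))| ≤ 1 / 4 := by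
    rw [hVsum]
    calc |∑ k ∈ Finset.range (n + 1), ev ωF (V (ind {Idx.aux (s k)}))|
        ≤ ∑ k ∈ Finset.range (n + 1), |ev ωF (V (ind {Idx.aux (s k)}))| :=
          Finset.abs_sum_le_sum_abs _ _
      _ ≤ ∑ _k ∈ Finset.range (n + 1), τ := Finset.sum_le_sum hsmall
      _ = ((n : ℝ) + 1) * τ := by
          rw [Finset.sum_const, Finset.card_range, nsmul_eq_mul]; push_cast; ring
      _ = 1 / 4 := by
          rw [hτ]
          have : (0 : ℝ) < (n : ℝ) + 1 := by positivity
          field_simp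
  have hTval : ev ωF (T n (ind tI)) = 1 := by
    rw [ev_T]
    simp only [Tfun, hωF, if_true, W, map_sum, LC_single, ev_ind]
    rw [Finset.sum_congr rfl (g := fun _ => wt n)]
    · rw [Finset.sum_const, Finset.card_range, nsmul_eq_mul]
      push_cast
      exact wt_mul n
    · intro k hk
      rw [if_pos, mul_one]
      exact Finset.mem_image_of_mem _ hk
  have hfin := hdiff (ind tI) ωF
  rw [hTval] at hfin
  have h1 : ‖T n - V‖ * ‖ind tI‖ ≤ ‖T n - V‖ * 1 :=
    mul_le_mul_of_nonneg_left (norm_ind_le _) (norm_nonneg _)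
  have h2 : 1 - ev ωF (V (ind tI)) ≤ |1 - ev ωF (V (ind tI))| := le_abs_self _
  have h3 : ev ωF (V (ind tI)) ≤ |ev ωF (V (ind tI))| := le_abs_self _
  linarith

theorem main (ε : ℝ) (hε : 0 < ε) : ∃ T : E₁ →L[ℝ] E₂, Positive T ∧ EpsIsometric ε T ∧
    ∀ V : E₁ →L[ℝ] E₂, Isometric V → 1 / 2 ≤ ‖T - V‖ := by
  obtain ⟨m, hm⟩ := exists_nat_gt (2 / ε)
  set n := m + 1 with hn
  have hw : 2 * wt n ≤ ε := by
    unfold wt
    have h1 : (0 : ℝ) < (n : ℝ) + 1 := by positivity
    rw [mul_one_div, div_le_iff₀ h1]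
    rw [div_lt_iff₀ hε] at hm
    have h2 : (n : ℝ) = m + 1 := by rw [hn]; push_cast; ring
    rw [h2]
    nlinarith
  refine ⟨T n, T_pos n, fun f => ⟨?_, ?_⟩, fun V hV => isom_far n (by omega) V hV⟩
  · have h := T_lower n f
    have h2 : (1 - ε) * ‖f‖ ≤ (1 - 2 * wt n) * ‖f‖ :=
      mul_le_mul_of_nonneg_right (by linarith) (norm_nonneg _)
    exact h2.trans h
  · have h := T_norm_le n f
    have h2 : 1 * ‖f‖ ≤ (1 + ε) * ‖f‖ :=
      mul_le_mul_of_nonneg_right (by linarith) (norm_nonneg _)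
    linarith

theorem far : FarFromIsometries E₁ E₂ := main

/-- There are measure spaces `Ω₁`, `Ω₂` such that for every `ε > 0` there is a positive
`ε`-isometric operator `L^∞(Ω₁) → L^∞(Ω₂)` at distance at least `1/2` from every isometric
operator.  In particular both property (A) and property (B₂) fail for
`B(L^∞(Ω₁), L^∞(Ω₂))`. -/
theorem result : ∃ (Ω₁ Ω₂ : Type) (_ : MeasurableSpace Ω₁) (_ : MeasurableSpace Ω₂)
    (μ₁ : Measure Ω₁) (μ₂ : Measure Ω₂), FarFromIsometries (LInf μ₁) (LInf μ₂) ∧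
    ¬ PropertyA (LInf μ₁) (LInf μ₂) ∧ ¬ PropertyB2 (LInf μ₁) (LInf μ₂) := by
  refine ⟨Idx, Pt, instIdx, instPt, Measure.count, Measure.count, main, ?_, ?_⟩
  · rintro ⟨δ, -, hδ, h⟩
    have h1 : ∀ᶠ ε in 𝓝[>] (0 : ℝ), δ ε < 1 / 2 :=
      hδ.eventually (gt_mem_nhds (by norm_num))
    have h2 : ∀ᶠ ε in 𝓝[>] (0 : ℝ), ε ∈ Ioo (0 : ℝ) 1 := Ioo_mem_nhdsGT one_pos
    obtain ⟨ε, hε1, hε2⟩ := (h1.and h2).exists
    obtain ⟨T, -, hT, hfar⟩ := main ε hε2.1
    obtain ⟨V, hV, hTV⟩ := h ε hε2 T hT
    have := hfar V hV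
    linarith
  · rintro ⟨δ, -, hδ, h⟩
    have h1 : ∀ᶠ ε in 𝓝[>] (0 : ℝ), δ ε < 1 / 2 :=
      hδ.eventually (gt_mem_nhds (by norm_num))
    have h2 : ∀ᶠ ε in 𝓝[>] (0 : ℝ), ε ∈ Ioo (0 : ℝ) 1 := Ioo_mem_nhdsGT one_pos
    obtain ⟨ε, hε1, hε2⟩ := (h1.and h2).exists
    obtain ⟨T, hTp, hT, hfar⟩ := main ε hε2.1
    obtain ⟨V, hV, -, hTV⟩ := h ε hε2 T hT hTp
    have := hfar V hV
    linarith

end Pool.Agent.Results.MP_80693f_an.NonSigmaFinite
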